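import Pool.Agent.W920.CT.Trans

set_option autoImplicit false

/-!
# Classification of the subshifts `XG g` up to conjugacy
-/

open Topology Filter Set

namespace Pool.Agent.W920.CT

/-- The constant point with letter `v`. -/
def cv (g : Par) (v : Vx) : XG g :=
  ⟨fun p => decide (p.2 = .inl v),
    ⟨fun n a b hab h => by simp at h ⊢; subst h; exact fun h' => hab h'.symm,
      fun n a j h => by simp,
      fun n a b hab _ h => by simp at h ⊢; subst h; exact fun h' => hab h'.symm⟩⟩

theorem cv_apply (g : Par) (v : Vx) (p : Pos) : (cv g v).1 p = decide (p.2 = .inl v) := rfl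

/-- Isolated fixed points. -/
def IsoFix {g : Par} (a : XG g) : Prop :=
  sh 1 a = a ∧ ∃ U : Set (XG g), IsOpen U ∧ a ∈ U ∧ ∀ x ∈ U, sh 1 x = x → x = a

/-- Existence of an orbit from `a` to `b` that is isolated in the uniform sense. -/
def Conn {g : Par} (a b : XG g) : Prop :=
  ∃ y : XG g, Tendsto (fun n : ℕ => sh (-(n : ℤ)) y) atTop (𝓝 a) ∧
    Tendsto (fun n : ℕ => sh (n : ℤ) y) atTop (𝓝 b) ∧
    ∃ f : XG g → Bool × Bool, Continuous f ∧ ∀ y' : XG g,
      (∀ n : ℤ, f (sh n y') = f (sh n y)) → y' = y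

theorem continuous_coord {g : Par} (p : Pos) : Continuous fun x : XG g => x.1 p :=
  (continuous_apply p).comp (continuous_subtype_val (p := fun x : Pos → Bool => Ok g x))

/-- A column containing a vertex letter is determined. -/
theorem col_eq {g : Par} {x y : XG g} {n : ℤ} {v : Vx} (hx : x.1 (n, .inl v) = true)
    (hy : y.1 (n, .inl v) = true) (s : St) : x.1 (n, s) = y.1 (n, s) := by
  rcases s with w | j
  · by_cases h : v = w
    · subst h; rw [hx, hy]
    · rw [x.2.h1 n v w h hx, y.2.h1 n v w h hy]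
  · rw [x.2.h2 n v j hx, y.2.h2 n v j hy]

theorem fix_apply {g : Par} {a : XG g} (h : sh 1 a = a) (n : ℤ) (s : St) :
    a.1 (n, s) = a.1 (0, s) := by
  have h1 : ∀ m : ℤ, a.1 (m + 1, s) = a.1 (m, s) := fun m =>
    congrFun (congrArg Subtype.val h) (m, s)
  induction n using Int.induction_on with
  | zero => rfl
  | succ n ih => rw [h1]; exact ih
  | pred n ih => rw [← h1 (-n - 1), sub_add_cancel]; exact ih

theorem cv_fix (g : Par) (v : Vx) : sh 1 (cv g v) = cv g v := by
  apply Subtype.ext; funext p; rfl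

theorem cv_self (g : Par) (v : Vx) (n : ℤ) : (cv g v).1 (n, .inl v) = true := by simp [cv]

theorem isoFix_cv (g : Par) (v : Vx) : IsoFix (cv g v) := by
  refine ⟨cv_fix g v, {x | x.1 (0, .inl v) = true},
    (isOpen_discrete {true}).preimage (continuous_coord _), cv_self g v 0, ?_⟩
  intro x hx hfix
  apply Subtype.ext
  funext p
  obtain ⟨n, s⟩ := p
  have h1 : x.1 (n, .inl v) = true := by rw [fix_apply hfix]; exact hx
  exact col_eq h1 (by simp [cv]) s

/-- Flipping the symbol `inr k` in all the columns in `A`. -/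
def flip (x : Pos → Bool) (A : Set ℤ) [DecidablePred (· ∈ A)] (k : ℕ) : Pos → Bool := fun p =>
  if p.1 ∈ A ∧ p.2 = .inr k then !x p else x p

theorem flip_ok {g : Par} {x : Pos → Bool} (hx : Ok g x) (A : Set ℤ) [DecidablePred (· ∈ A)]
    (hA : ∀ n ∈ A, ∀ v, x (n, .inl v) = false) (k : ℕ) : Ok g (flip x A k) := by
  have h0 : ∀ n (v : Vx), flip x A k (n, .inl v) = x (n, .inl v) := fun n v => by simp [flip]
  refine ⟨fun n v w hvw h => ?_, fun n v j h => ?_, fun n v w hvw hD h => ?_⟩
  · rw [h0] at h ⊢; exact hx.h1 n v w hvw h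
  · rw [h0] at h
    unfold flip
    rw [if_neg]
    · exact hx.h2 n v j h
    · rintro ⟨hn, -⟩
      rw [hA n hn v] at h
      exact Bool.false_ne_true h
  · rw [h0] at h ⊢; exact hx.h3 n v w hvw hD h

theorem isoFix_iff {g : Par} (a : XG g) : IsoFix a ↔ ∃ v, a = cv g v := by
  constructor
  · rintro ⟨hfix, U, hU, haU, huniq⟩
    by_cases hv : ∃ v : Vx, a.1 (0, .inl v) = true
    · obtain ⟨v, hv⟩ := hv
      refine ⟨v, ?_⟩
      apply Subtype.ext
      funext p
      obtain ⟨n, s⟩ := p
      have h1 : a.1 (n, .inl v) = true := by rw [fix_apply hfix]; exact hv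
      exact col_eq h1 (by simp [cv]) s
    · exfalso
      push Not at hv
      have hv' : ∀ n : ℤ, ∀ v : Vx, a.1 (n, .inl v) = false := fun n v => by
        rw [fix_apply hfix]; simpa using hv v
      obtain ⟨F, hF⟩ := exists_nbhd hU haU
      obtain ⟨k, hk⟩ : ∃ k : ℕ, ∀ p ∈ F, p.2 ≠ .inr k := by
        classical
        obtain ⟨k, hk⟩ := Infinite.exists_notMem_finset
          (F.image fun p => match p.2 with | .inr j => j | .inl _ => 0)
        refine ⟨k, fun p hp h => hk ?_⟩
        rw [Finset.mem_image]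
        exact ⟨p, hp, by rw [h]⟩
      classical
      let b : XG g := ⟨flip a.1 univ k, flip_ok a.2 univ (fun n _ v => hv' n v) k⟩
      have hb : b ∈ U := hF b fun p hp => by
        show flip a.1 univ k p = _
        unfold flip
        rw [if_neg]
        rintro ⟨-, h⟩
        exact hk p hp h
      have hbf : sh 1 b = b := by
        apply Subtype.ext
        funext p
        obtain ⟨n, s⟩ := p
        show flip a.1 univ k (n + 1, s) = flip a.1 univ k (n, s)
        unfold flip
        simp only [mem_univ, true_and]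
        rw [fix_apply hfix (n + 1) s, fix_apply hfix n s]
      have hba := huniq b hb hbf
      have : b.1 (0, .inr k) = a.1 (0, .inr k) := by rw [hba]
      have h2 : b.1 (0, .inr k) = !a.1 (0, .inr k) := by
        show flip a.1 univ k (0, .inr k) = _
        simp [flip]
      rw [h2] at this
      simp at this
  · rintro ⟨v, rfl⟩
    exact isoFix_cv g v

theorem cv_injective (g : Par) : Function.Injective (cv g) := by
  intro v w h
  have : (cv g v).1 (0, .inl v) = (cv g w).1 (0, .inl v) := by rw [h]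
  simpa [cv] using this

theorem Dg_source {g : Par} {v w : Vx} (h : Dg g v w = true) :
    (∃ i, v = .inl i) ∧ ∃ q, w = .inr q := by
  rcases v with v | v <;> rcases w with w | w <;> simp_all [Dg]

theorem tendsto_XG {g : Par} {u : ℕ → XG g} {a : XG g} :
    Tendsto u atTop (𝓝 a) ↔ ∀ p, Tendsto (fun n => (u n).1 p) atTop (𝓝 (a.1 p)) := by
  have h := tendsto_subtype_rng (p := fun x : Pos → Bool => Ok g x) (f := u) (l := atTop) (x := a)
  exact h.trans tendsto_pi_nhds

theorem conn_of_Dg {g : Par} {v w : Vx} (h : Dg g v w = true) : Conn (cv g v) (cv g w) := by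
  obtain ⟨⟨i, hi⟩, q, hq⟩ := Dg_source h
  have hvw : v ≠ w := by subst hi hq; simp
  have hwD : ∀ u, Dg g w u = false := fun u => by subst hq; rfl
  have hDv : ∀ u, Dg g u v = false := fun u => by subst hi; rcases u with u | u <;> rfl
  let yf : Pos → Bool := fun p => if p.1 ≤ 0 then decide (p.2 = .inl v) else decide (p.2 = .inl w)
  have hy : Ok g yf := by
    refine ⟨fun n a b hab h => ?_, fun n a j h => ?_, fun n a b hab hD h' => ?_⟩
    · simp only [yf] at h ⊢
      split_ifs at h ⊢ <;> simp at h ⊢ <;> subst h <;> exact fun h' => hab h'.symm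
    · simp only [yf]
      split_ifs <;> simp
    · simp only [yf] at h' ⊢
      by_contra hc
      split_ifs at h' hc with h1 h2
      · simp at h' hc; subst h'; exact hab hc.symm
      · simp at h' hc; subst h' hc; rw [h] at hD; exact absurd hD (by simp)
      · omega
      · simp at h' hc; subst h'; exact hab hc.symm
  let y : XG g := ⟨yf, hy⟩
  refine ⟨y, ?_, ?_, fun x => (x.1 (0, .inl v), x.1 (0, .inl w)),
    (continuous_coord _).prodMk (continuous_coord _), ?_⟩
  · refine tendsto_XG.2 ?_
    rintro ⟨m, s⟩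
    refine tendsto_const_nhds.congr' ?_
    filter_upwards [eventually_ge_atTop m.toNat] with n hn
    show decide (s = .inl v) = if m + -(n : ℤ) ≤ 0 then decide (s = .inl v) else decide (s = .inl w)
    rw [if_pos (by omega)]
  · refine tendsto_XG.2 ?_
    rintro ⟨m, s⟩
    refine tendsto_const_nhds.congr' ?_
    filter_upwards [eventually_ge_atTop ((-m).toNat + 1)] with n hn
    show decide (s = .inl w) = if m + (n : ℤ) ≤ 0 then decide (s = .inl v) else decide (s = .inl w)
    rw [if_neg (by omega)]
  · intro y' hy'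
    apply Subtype.ext
    funext p
    obtain ⟨n, s⟩ := p
    have h1 := hy' n
    simp only [Prod.mk.injEq] at h1
    have h2 : y'.1 (0 + n, .inl v) = yf (0 + n, .inl v) := h1.1
    have h3 : y'.1 (0 + n, .inl w) = yf (0 + n, .inl w) := h1.2
    rw [zero_add] at h2 h3
    by_cases hn : n ≤ 0
    · have h4 : yf (n, .inl v) = true := by simp [yf, hn]
      exact col_eq (x := y') (y := y) (by rw [h2]; exact h4) h4 s
    · have h4 : yf (n, .inl w) = true := by simp [yf, hn]
      exact col_eq (x := y') (y := y) (by rw [h3]; exact h4) h4 s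

theorem Dg_of_conn {g : Par} {v w : Vx} (hvw : v ≠ w) (h : Conn (cv g v) (cv g w)) :
    Dg g v w = true := by
  obtain ⟨y, hv, hw, f, hf, huniq⟩ := h
  have e1 : ∀ᶠ n : ℕ in atTop, y.1 (-(n : ℤ), .inl v) = true := by
    have h1 := hv.eventually_mem (((isOpen_discrete {true}).preimage
      (continuous_coord (g := g) (0, .inl v))).mem_nhds (cv_self g v 0))
    filter_upwards [h1] with n hn
    have : y.1 (0 + -(n : ℤ), .inl v) = true := hn
    rwa [zero_add] at this
  have e2 : ∀ᶠ n : ℕ in atTop, y.1 ((n : ℤ), .inl w) = true := by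
    have h1 := hw.eventually_mem (((isOpen_discrete {true}).preimage
      (continuous_coord (g := g) (0, .inl w))).mem_nhds (cv_self g w 0))
    filter_upwards [h1] with n hn
    have : y.1 (0 + (n : ℤ), .inl w) = true := hn
    rwa [zero_add] at this
  by_cases hc : ∃ n : ℤ, ∀ u : Vx, y.1 (n, .inl u) = false
  · exfalso
    obtain ⟨n, hn⟩ := hc
    obtain ⟨F, hF⟩ := exists_finset f hf
    obtain ⟨k, hk⟩ : ∃ k : ℕ, ∀ p ∈ F, p.2 ≠ .inr k := by
      classical
      obtain ⟨k, hk⟩ := Infinite.exists_notMem_finset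
        (F.image fun p => match p.2 with | .inr j => j | .inl _ => 0)
      refine ⟨k, fun p hp h => hk ?_⟩
      rw [Finset.mem_image]
      exact ⟨p, hp, by rw [h]⟩
    classical
    let b : XG g := ⟨flip y.1 {n} k, flip_ok y.2 {n} (fun m hm v => by
      rw [mem_singleton_iff.1 hm]; exact hn v) k⟩
    have hb : b = y := by
      apply huniq
      intro m
      apply hF
      intro p hp
      show flip y.1 {n} k (p.1 + m, p.2) = y.1 (p.1 + m, p.2)
      unfold flip
      rw [if_neg]
      rintro ⟨-, h⟩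
      exact hk p hp h
    have h1 : b.1 (n, .inr k) = y.1 (n, .inr k) := by rw [hb]
    have h2 : b.1 (n, .inr k) = !y.1 (n, .inr k) := by
      show flip y.1 {n} k (n, .inr k) = _
      simp [flip]
    rw [h2] at h1
    simp at h1
  · push Not at hc
    obtain ⟨N, hN⟩ := e1.exists
    have key : ∀ k : ℕ, y.1 (-(N : ℤ) + k, .inl v) = true ∨
        ∃ t, Dg g v t = true ∧ y.1 (-(N : ℤ) + k, .inl t) = true := by
      intro k
      induction k with
      | zero => left; simpa using hN
      | succ k ih =>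
        obtain ⟨u, hu⟩ := hc (-(N : ℤ) + (k + 1 : ℕ))
        have hu' : y.1 (-(N : ℤ) + (k + 1 : ℕ), .inl u) = true := by simpa using hu
        have e : (-(N : ℤ) + (k + 1 : ℕ)) = -(N : ℤ) + k + 1 := by push_cast; ring
        rcases ih with ih | ⟨t, hDt, ih⟩
        · by_cases huv : u = v
          · left; rw [← huv]; exact hu'
          · right
            refine ⟨u, ?_, hu'⟩
            by_contra hD
            have := y.2.h3 (-(N : ℤ) + k) v u (fun h => huv h.symm) (by simpa using hD) ih
            rw [← e, hu'] at this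
            exact absurd this (by simp)
        · right
          obtain ⟨-, q, hq⟩ := Dg_source hDt
          by_cases hut : u = t
          · exact ⟨t, hDt, by rw [← hut]; exact hu'⟩
          · exfalso
            have hD : Dg g t u = false := by subst hq; rfl
            have := y.2.h3 (-(N : ℤ) + k) t u (fun h => hut h.symm) hD ih
            rw [← e, hu'] at this
            exact absurd this (by simp)
    obtain ⟨M, hM⟩ := e2.exists
    have hk := key (M + N)
    have e : (-(N : ℤ) + (M + N : ℕ)) = M := by push_cast; ring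
    rw [e] at hk
    rcases hk with hk | ⟨t, hDt, hk⟩
    · rw [y.2.h1 M w v (fun h => hvw h.symm) hM] at hk
      exact absurd hk (by simp)
    · by_cases htw : t = w
      · rw [← htw]; exact hDt
      · rw [y.2.h1 M w t (fun h => htw h.symm) hM] at hk
        exact absurd hk (by simp)

theorem conn_iff {g : Par} {v w : Vx} (hvw : v ≠ w) :
    Conn (cv g v) (cv g w) ↔ Dg g v w = true :=
  ⟨Dg_of_conn hvw, conn_of_Dg⟩

section conj

variable {g g' : Par} (H : XG g ≃ₜ XG g') (hH : ∀ x, H (sh 1 x) = sh 1 (H x))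

include hH

theorem conj_sh_nat (n : ℕ) (x : XG g) : H (sh (n : ℤ) x) = sh (n : ℤ) (H x) := by
  induction n generalizing x with
  | zero => simp [sh_zero]
  | succ n ih =>
    have e1 : ∀ {g : Par} (x : XG g), sh ((n + 1 : ℕ) : ℤ) x = sh (n : ℤ) (sh 1 x) := fun x => by
      rw [sh_sh]; push_cast; rfl
    rw [e1, e1, ih, hH]

theorem conj_sh (n : ℤ) (x : XG g) : H (sh n x) = sh n (H x) := by
  rcases Int.eq_nat_or_neg n with ⟨m, rfl | rfl⟩
  · exact conj_sh_nat H hH m x
  · have h1 := conj_sh_nat H hH m (sh (-(m : ℤ)) x)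
    rw [sh_sh, add_neg_cancel, sh_zero] at h1
    rw [h1, sh_sh, neg_add_cancel, sh_zero]

theorem conj_symm (x : XG g') : H.symm (sh 1 x) = sh 1 (H.symm x) := by
  apply H.injective
  rw [H.apply_symm_apply, hH, H.apply_symm_apply]

theorem isoFix_map {a : XG g} (ha : IsoFix a) : IsoFix (H a) := by
  obtain ⟨h1, U, hU, haU, hu⟩ := ha
  refine ⟨by rw [← hH, h1], H.symm ⁻¹' U, hU.preimage H.symm.continuous, by simpa using haU, ?_⟩
  intro x hx hfix
  have h2 := hu (H.symm x) hx (by rw [← conj_symm H hH, hfix])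
  rw [← h2, H.apply_symm_apply]

theorem conn_map {a b : XG g} (hab : Conn a b) : Conn (H a) (H b) := by
  obtain ⟨y, h1, h2, f, hf, hu⟩ := hab
  refine ⟨H y, ?_, ?_, f ∘ H.symm, hf.comp H.symm.continuous, ?_⟩
  · have := (H.continuous.tendsto a).comp h1
    refine this.congr fun n => ?_
    exact conj_sh H hH _ _
  · have := (H.continuous.tendsto b).comp h2
    refine this.congr fun n => ?_
    exact conj_sh H hH _ _
  · intro y' hy'
    have h3 := hu (H.symm y') (fun n => by
      have h4 := hy' n
      simp only [Function.comp_apply] at h4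
      rw [conj_sh H.symm (conj_symm H hH), conj_sh H.symm (conj_symm H hH),
        H.symm_apply_apply] at h4
      exact h4)
    rw [← h3, H.apply_symm_apply]

theorem exists_perm : ∃ π : Vx ≃ Vx, ∀ v w, Dg g v w = Dg g' (π v) (π w) := by
  have h1 : ∀ v, ∃ v', H (cv g v) = cv g' v' := fun v =>
    (isoFix_iff _).1 (isoFix_map H hH (isoFix_cv g v))
  have h2 : ∀ v, ∃ v', H.symm (cv g' v) = cv g v' := fun v =>
    (isoFix_iff _).1 (isoFix_map H.symm (conj_symm H hH) (isoFix_cv g' v))
  choose p hp using h1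
  choose q hq using h2
  refine ⟨⟨p, q, fun v => ?_, fun v => ?_⟩, fun v w => ?_⟩
  · apply cv_injective g
    rw [← hq, ← hp, H.symm_apply_apply]
  · apply cv_injective g'
    rw [← hp, ← hq, H.apply_symm_apply]
  · show Dg g v w = Dg g' (p v) (p w)
    by_cases hvw : v = w
    · subst hvw
      rcases v with v | v
      · rcases hh : p (.inl v) with u | u <;> rfl
      · rcases hh : p (.inr v) with u | u <;> rfl
    · have hpvw : p v ≠ p w := fun h => hvw (by
        apply cv_injective g
        apply H.injective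
        rw [hp, hp, h])
      rw [Bool.eq_iff_iff, ← conn_iff hvw, ← conn_iff hpvw, ← hp, ← hp]
      constructor
      · exact conn_map H hH
      · intro h
        have := conn_map H.symm (conj_symm H hH) h
        simpa using this

end conj

/-- Reading off the graph from the incidence digraph. -/
theorem graph_iso_of_perm {g g' : Par} (hg : ∀ m n, g (m, n) = g (n, m)) (hg0 : ∀ n, g (n, n) = false)
    (hg' : ∀ m n, g' (m, n) = g' (n, m)) (hg0' : ∀ n, g' (n, n) = false)
    (π : Vx ≃ Vx) (hπ : ∀ v w, Dg g v w = Dg g' (π v) (π w)) :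
    ∃ σ : Equiv.Perm ℕ, ∀ m n, g (m, n) = g' (σ m, σ n) := by
  have s1 : ∀ (g : Par) (i : ℕ), Dg g (.inl i) (.inr (i, i)) = true := fun g i => by simp [Dg]
  have h1 : ∀ i : ℕ, ∃ j : ℕ, π (.inl i) = .inl j := fun i => by
    have := s1 g i
    rw [hπ] at this
    exact (Dg_source this).1
  have h2 : ∀ i : ℕ, ∃ j : ℕ, π.symm (.inl i) = .inl j := fun i => by
    have h3 := hπ (π.symm (.inl i)) (π.symm (.inr (i, i)))
    rw [π.apply_symm_apply, π.apply_symm_apply, s1 g' i] at h3
    exact (Dg_source h3).1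
  choose p hp using h1
  choose q hq using h2
  have s2 : ∀ {g : Par}, (∀ m n, g (m, n) = g (n, m)) → ∀ i j : ℕ, i ≠ j →
      (g (i, j) = true ↔ ∃ t : Vx, Dg g (.inl i) t = true ∧ Dg g (.inl j) t = true) := by
    intro g hg i j hij
    constructor
    · intro h
      exact ⟨.inr (i, j), by simp [Dg, h], by simp [Dg, h]⟩
    · rintro ⟨t, ht1, ht2⟩
      obtain ⟨-, ⟨a, b⟩, rfl⟩ := Dg_source ht1
      simp only [Dg, Bool.and_eq_true, Bool.or_eq_true, decide_eq_true_eq] at ht1 ht2
      rcases ht1 with ⟨rfl | rfl, h3⟩ <;> rcases ht2 with ⟨rfl | rfl, h4⟩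
      · exact absurd rfl hij
      · rcases h3 with h3 | h3
        · exact absurd h3 hij
        · exact h3
      · rcases h3 with h3 | h3
        · exact absurd h3.symm hij
        · rw [hg]; exact h3
      · exact absurd rfl hij
  refine ⟨⟨p, q, fun i => ?_, fun i => ?_⟩, fun i j => ?_⟩
  · have : (Sum.inl (q (p i)) : Vx) = .inl i := by rw [← hq, ← hp, π.symm_apply_apply]
    simpa using this
  · have : (Sum.inl (p (q i)) : Vx) = .inl i := by rw [← hp, ← hq, π.apply_symm_apply]
    simpa using this
  · show g (i, j) = g' (p i, p j)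
    by_cases hij : i = j
    · subst hij; rw [hg0, hg0']
    · have hpij : p i ≠ p j := fun h => hij (by
        have : π (.inl i) = π (.inl j) := by rw [hp, hp, h]
        simpa using this)
      rw [Bool.eq_iff_iff, s2 hg i j hij, s2 hg' _ _ hpij]
      constructor
      · rintro ⟨t, h3, h4⟩
        refine ⟨π t, ?_, ?_⟩
        · rw [← hp, ← hπ]; exact h3
        · rw [← hp, ← hπ]; exact h4
      · rintro ⟨t, h3, h4⟩
        refine ⟨π.symm t, ?_, ?_⟩
        · rw [hπ, π.apply_symm_apply, hp]; exact h3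
        · rw [hπ, π.apply_symm_apply, hp]; exact h4

/-- Relabelling. -/
theorem relabel_ok {g g' : Par} (τ : Vx ≃ Vx) (hτ : ∀ v w, Dg g v w = Dg g' (τ v) (τ w))
    {x : Pos → Bool} (hx : Ok g x) :
    Ok g' (fun p => x (p.1, (Equiv.sumCongr τ (Equiv.refl ℕ)).symm p.2)) := by
  refine ⟨fun n v w hvw h => ?_, fun n v j h => ?_, fun n v w hvw hD h => ?_⟩
  · exact hx.h1 n (τ.symm v) (τ.symm w) (fun h => hvw (τ.symm.injective h)) h
  · exact hx.h2 n (τ.symm v) j h
  · exact hx.h3 n (τ.symm v) (τ.symm w) (fun h => hvw (τ.symm.injective h))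
      (by rw [hτ]; simpa using hD) h

theorem exists_conj_of_iso {g g' : Par} (τ : Vx ≃ Vx)
    (hτ : ∀ v w, Dg g v w = Dg g' (τ v) (τ w)) :
    ∃ H : XG g ≃ₜ XG g', ∀ x, H (sh 1 x) = sh 1 (H x) := by
  have hτ' : ∀ v w, Dg g' v w = Dg g (τ.symm v) (τ.symm w) := fun v w => by
    rw [hτ]; simp
  refine ⟨{ toFun := fun x => ⟨_, relabel_ok τ hτ x.2⟩
            invFun := fun x => ⟨_, relabel_ok τ.symm hτ' x.2⟩
            left_inv := ?_
            right_inv := ?_
            continuous_toFun := ?_
            continuous_invFun := ?_ }, ?_⟩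
  · intro x
    apply Subtype.ext
    funext p
    obtain ⟨n, v | j⟩ := p <;> simp
  · intro x
    apply Subtype.ext
    funext p
    obtain ⟨n, v | j⟩ := p <;> simp
  · exact Continuous.subtype_mk (continuous_pi fun p => continuous_coord _) _
  · exact Continuous.subtype_mk (continuous_pi fun p => continuous_coord _) _
  · intro x
    rfl

/-- The permutation of vertex letters induced by a permutation of `ℕ`. -/
def perm (σ : Equiv.Perm ℕ) : Vx ≃ Vx := Equiv.sumCongr σ (Equiv.prodCongr σ σ)

theorem perm_Dg {g g' : Par} (σ : Equiv.Perm ℕ) (h : ∀ m n, g (m, n) = g' (σ m, σ n)) (v w : Vx) :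
    Dg g v w = Dg g' (perm σ v) (perm σ w) := by
  rcases v with v | v <;> rcases w with w | ⟨a, b⟩ <;> simp [Dg, perm, h]

/-- The conjugacy classification of the `TG g`. -/
theorem conj_iff {g g' : Par} (hg : ∀ m n, g (m, n) = g (n, m)) (hg0 : ∀ n, g (n, n) = false)
    (hg' : ∀ m n, g' (m, n) = g' (n, m)) (hg0' : ∀ n, g' (n, n) = false) :
    (∃ h : Cantor ≃ₜ Cantor, TG g' = h * TG g * h⁻¹) ↔
      ∃ σ : Equiv.Perm ℕ, ∀ m n, g (m, n) = g' (σ m, σ n) := by
  constructor
  · rintro ⟨h, hh⟩
    have h1 : ∀ z, TG g' (h z) = h (TG g z) := fun z => by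
      rw [hh]
      show h (TG g (h.symm (h z))) = _
      rw [h.symm_apply_apply]
    have h2 : ∀ (g : Par) (z : Cantor), phi g (TG g z) = sh 1 (phi g z) := fun g z => by
      show phi g ((phi g).symm (sh 1 (phi g z))) = _
      rw [(phi g).apply_symm_apply]
    obtain ⟨π, hπ⟩ := exists_perm (((phi g).symm.trans h).trans (phi g')) (fun x => by
      show phi g' (h ((phi g).symm (sh 1 x))) = sh 1 (phi g' (h ((phi g).symm x)))
      rw [← h2, h1]
      congr 2
      apply (phi g).injective
      rw [(phi g).apply_symm_apply, h2, (phi g).apply_symm_apply])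
    exact graph_iso_of_perm hg hg0 hg' hg0' π hπ
  · rintro ⟨σ, hσ⟩
    obtain ⟨H, hH⟩ := exists_conj_of_iso (perm σ) (perm_Dg σ hσ)
    refine ⟨((phi g).trans H).trans (phi g').symm, ?_⟩
    ext1 z
    show (phi g').symm (sh 1 (phi g' z)) =
      (phi g').symm (H (phi g ((phi g).symm (sh 1 (phi g ((phi g).symm (H.symm (phi g' z))))))))
    rw [(phi g).apply_symm_apply, (phi g).apply_symm_apply, hH, H.apply_symm_apply]

end Pool.Agent.W920.CT
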