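import Pool.Agent.W920.CT.Trans

set_option autoImplicit false

/-!
# Conjugacy of transitive homeomorphisms of the Cantor space and graph isomorphism: definitions
-/

open Topology Filter Set

namespace Pool.Agent.W920.CT

universe u v

/-- The space of topologically transitive homeomorphisms of the Cantor space `ℕ → Bool`. -/
def TransHomeo : Type := {T : Cantor ≃ₜ Cantor // IsTransitive T}

/-- The topology of uniform convergence: it is induced by the compact-open topology on
`C(Cantor, Cantor)`, which is the topology of uniform convergence, since `Cantor` is compact. -/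
instance : TopologicalSpace TransHomeo :=
  TopologicalSpace.induced (fun T => (⟨T.1, T.1.continuous⟩ : C(Cantor, Cantor))) inferInstance

instance : MeasurableSpace TransHomeo := borel TransHomeo

instance : BorelSpace TransHomeo := ⟨rfl⟩

/-- Topological conjugacy. -/
def TopConj (S T : TransHomeo) : Prop := ∃ h : Cantor ≃ₜ Cantor, S.1 = h * T.1 * h⁻¹

/-- Borel reducibility of (equivalence) relations on measurable spaces. -/
def BorelReducible {X : Type u} {Y : Type v} [MeasurableSpace X] [MeasurableSpace Y]
    (E : X → X → Prop) (F : Y → Y → Prop) : Prop :=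
  ∃ f : X → Y, Measurable f ∧ ∀ x x', E x x' ↔ F (f x) (f x')

/-- The space of graphs with vertex set `ℕ`: symmetric irreflexive relations, as points of
`ℕ × ℕ → Bool`. -/
def CGraph : Type := {G : ℕ × ℕ → Bool // (∀ m n, G (m, n) = G (n, m)) ∧ ∀ n, G (n, n) = false}

/-- The Borel structure is induced by the product space `ℕ × ℕ → Bool`. -/
instance : MeasurableSpace CGraph :=
  inferInstanceAs (MeasurableSpace {G : ℕ × ℕ → Bool // (∀ m n, G (m, n) = G (n, m)) ∧
    ∀ n, G (n, n) = false})

/-- Graph isomorphism. -/
def CGraphIso (G H : CGraph) : Prop :=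
  ∃ σ : Equiv.Perm ℕ, ∀ m n, G.1 (m, n) = H.1 (σ m, σ n)

end Pool.Agent.W920.CT
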