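import Mathlib

set_option autoImplicit false

/-!
# Coding an arbitrary binary relation on `ℕ` into a simple graph
-/

open Set

namespace Pool.Agent.W920.CT

/-- Nodes: elements, and three gadget nodes for every ordered pair. -/
abbrev GW : Type := ℕ ⊕ ((ℕ × ℕ) ⊕ ((ℕ × ℕ) ⊕ (ℕ × ℕ)))

/-- Oriented adjacency. -/
def ad (R : ℕ × ℕ → Bool) : GW → GW → Bool
  | .inl a, .inr (.inl q) => decide (a = q.1)
  | .inr (.inl q), .inr (.inr (.inl q')) => decide (q = q')
  | .inr (.inr (.inl q)), .inl b => decide (b = q.2)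
  | .inr (.inr (.inl q)), .inr (.inr (.inr q')) => decide (q = q') && R q
  | _, _ => false

/-- Adjacency. -/
def adj (R : ℕ × ℕ → Bool) (u v : GW) : Bool := ad R u v || ad R v u

theorem adj_symm (R : ℕ × ℕ → Bool) (u v : GW) : adj R u v = adj R v u := by
  unfold adj; rw [Bool.or_comm]

theorem adj_irr (R : ℕ × ℕ → Bool) (u : GW) : adj R u u = false := by
  rcases u with a | q | q | q <;> simp [adj, ad]

/-- The neighbours. -/
def nb (R : ℕ × ℕ → Bool) (u : GW) : Set GW := {v | adj R u v = true}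

theorem mem_nb (R : ℕ × ℕ → Bool) (u v : GW) : v ∈ nb R u ↔ adj R u v = true := Iff.rfl

theorem nb_elt (R : ℕ × ℕ → Bool) (a : ℕ) : (nb R (.inl a)).Infinite := by
  refine Set.infinite_of_injective_forall_mem (f := fun n : ℕ => (.inr (.inl (a, n)) : GW)) ?_ ?_
  · intro n m h; simpa using h
  · intro n; simp [nb, adj, ad]

theorem nb_P (R : ℕ × ℕ → Bool) (q : ℕ × ℕ) :
    nb R (.inr (.inl q)) = {.inl q.1, .inr (.inr (.inl q))} := by
  ext v
  rw [mem_nb]
  rcases v with a | p | p | p <;> simp [adj, ad]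
  exact eq_comm

theorem nb_P_card (R : ℕ × ℕ → Bool) (q : ℕ × ℕ) : (nb R (.inr (.inl q))).encard = 2 := by
  rw [nb_P, Set.encard_pair (by simp)]

theorem nb_Q_false {R : ℕ × ℕ → Bool} {q : ℕ × ℕ} (h : R q = false) :
    nb R (.inr (.inr (.inl q))) = {.inl q.2, .inr (.inl q)} := by
  ext v
  rw [mem_nb]
  rcases v with a | p | p | p <;> simp [adj, ad, h]

theorem nb_Q_true {R : ℕ × ℕ → Bool} {q : ℕ × ℕ} (h : R q = true) :
    nb R (.inr (.inr (.inl q))) = {.inl q.2, .inr (.inl q), .inr (.inr (.inr q))} := by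
  ext v
  rw [mem_nb]
  rcases v with a | p | p | p <;> simp [adj, ad, h]
  exact eq_comm

theorem nb_Q_card_false {R : ℕ × ℕ → Bool} {q : ℕ × ℕ} (h : R q = false) :
    (nb R (.inr (.inr (.inl q)))).encard = 2 := by
  rw [nb_Q_false h, Set.encard_pair (by simp)]

theorem nb_Q_card_true {R : ℕ × ℕ → Bool} {q : ℕ × ℕ} (h : R q = true) :
    (nb R (.inr (.inr (.inl q)))).encard = 3 := by
  rw [nb_Q_true h, Set.encard_insert_of_notMem (by simp), Set.encard_pair (by simp)]
  rfl

theorem nb_L (R : ℕ × ℕ → Bool) (q : ℕ × ℕ) :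
    nb R (.inr (.inr (.inr q))) ⊆ {.inr (.inr (.inl q))} := by
  intro v hv
  rcases v with a | p | p | p <;> simp [nb, adj, ad] at hv ⊢
  exact hv.1

theorem nb_L_card (R : ℕ × ℕ → Bool) (q : ℕ × ℕ) :
    (nb R (.inr (.inr (.inr q)))).encard ≤ 1 := by
  refine (Set.encard_le_encard (nb_L R q)).trans ?_
  rw [Set.encard_singleton]

theorem elt_iff (R : ℕ × ℕ → Bool) (u : GW) : (nb R u).Infinite ↔ ∃ a, u = .inl a := by
  constructor
  · intro h
    rcases u with a | q | q | q
    · exact ⟨a, rfl⟩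
    · exfalso; apply h; rw [nb_P]; exact Set.toFinite _
    · exfalso; apply h
      rcases hR : R q with _ | _
      · rw [nb_Q_false hR]; exact Set.toFinite _
      · rw [nb_Q_true hR]; exact Set.toFinite _
    · exfalso; exact h ((Set.finite_singleton _).subset (nb_L R q))
  · rintro ⟨a, rfl⟩; exact nb_elt R a

theorem two_ne_three : (2 : ℕ∞) ≠ 3 := by decide

theorem decode (R : ℕ × ℕ → Bool) (a b : ℕ) : R (a, b) = true ↔
    ∃ p q : GW, adj R (.inl a) p = true ∧ adj R p q = true ∧ adj R q (.inl b) = true ∧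
      (nb R p).encard = 2 ∧ (nb R q).encard = 3 := by
  constructor
  · intro h
    exact ⟨.inr (.inl (a, b)), .inr (.inr (.inl (a, b))), by simp [adj, ad], by simp [adj, ad],
      by simp [adj, ad], nb_P_card R _, nb_Q_card_true h⟩
  · rintro ⟨p, q, h1, h2, h3, h4, h5⟩
    have hq : ∀ c, q ≠ .inl c := by
      rintro c rfl
      rw [(nb_elt R c).encard_eq] at h5
      exact absurd h5 (by decide)
    have hqP : ∀ c, q ≠ .inr (.inl c) := by
      rintro c rfl
      rw [nb_P_card] at h5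
      exact two_ne_three h5
    have hqL : ∀ c, q ≠ .inr (.inr (.inr c)) := by
      rintro c rfl
      have := nb_L_card R c
      rw [h5] at this
      exact absurd this (by decide)
    rcases q with c | c | c | c
    · exact absurd rfl (hq c)
    · exact absurd rfl (hqP c)
    · have hR : R c = true := by
        by_contra hR
        rw [nb_Q_card_false (by simpa using hR)] at h5
        exact two_ne_three h5
      have hb : b = c.2 := by simpa [adj, ad] using h3
      rcases p with d | d | d | d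
      · simp [adj, ad] at h1
      · have h6 : a = d.1 := by simpa [adj, ad] using h1
        have h7 : d = c := by simpa [adj, ad] using h2
        rw [h6, hb, h7]; exact hR
      · simp [adj, ad] at h2
      · simp [adj, ad] at h1
    · exact absurd rfl (hqL c)

theorem nb_map {R R' : ℕ × ℕ → Bool} (σ : GW ≃ GW)
    (hσ : ∀ u v, adj R u v = adj R' (σ u) (σ v)) (u : GW) : nb R' (σ u) = σ '' nb R u := by
  ext v
  rw [σ.image_eq_preimage_symm]
  show adj R' (σ u) v = true ↔ adj R u (σ.symm v) = true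
  rw [hσ, σ.apply_symm_apply]

theorem rel_iso_of_adj {R R' : ℕ × ℕ → Bool} (σ : GW ≃ GW)
    (hσ : ∀ u v, adj R u v = adj R' (σ u) (σ v)) :
    ∃ τ : Equiv.Perm ℕ, ∀ a b, R (a, b) = R' (τ a, τ b) := by
  have hσ' : ∀ u v, adj R' u v = adj R (σ.symm u) (σ.symm v) := fun u v => by
    rw [hσ]; simp
  have h1 : ∀ a, ∃ b, σ (.inl a) = .inl b := fun a => by
    rw [← elt_iff R', nb_map σ hσ]
    exact (nb_elt R a).image σ.injective.injOn
  have h2 : ∀ a, ∃ b, σ.symm (.inl a) = .inl b := fun a => by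
    rw [← elt_iff R, nb_map σ.symm hσ']
    exact (nb_elt R' a).image σ.symm.injective.injOn
  choose f hf using h1
  choose g hg using h2
  have key : ∀ {R R' : ℕ × ℕ → Bool} (σ : GW ≃ GW) (_ : ∀ u v, adj R u v = adj R' (σ u) (σ v))
      (f : ℕ → ℕ) (_ : ∀ a, σ (.inl a) = .inl (f a)) (a b : ℕ),
      R (a, b) = true → R' (f a, f b) = true := by
    intro R R' σ hσ f hf a b h
    rw [decode] at h ⊢
    obtain ⟨p, q, h1, h2, h3, h4, h5⟩ := h
    refine ⟨σ p, σ q, ?_, ?_, ?_, ?_, ?_⟩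
    · rw [← hf, ← hσ]; exact h1
    · rw [← hσ]; exact h2
    · rw [← hf, ← hσ]; exact h3
    · rw [nb_map σ hσ, σ.injective.encard_image]; exact h4
    · rw [nb_map σ hσ, σ.injective.encard_image]; exact h5
  have e1 : ∀ a, g (f a) = a := fun a => by
    have : (.inl (g (f a)) : GW) = .inl a := by rw [← hg, ← hf, σ.symm_apply_apply]
    simpa using this
  have e2 : ∀ a, f (g a) = a := fun a => by
    have : (.inl (f (g a)) : GW) = .inl a := by rw [← hf, ← hg, σ.apply_symm_apply]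
    simpa using this
  refine ⟨⟨f, g, e1, e2⟩, fun a b => ?_⟩
  show R (a, b) = R' (f a, f b)
  rw [Bool.eq_iff_iff]
  constructor
  · exact key σ hσ f hf a b
  · intro h
    have := key σ.symm hσ' g hg (f a) (f b) h
    rwa [e1, e1] at this

/-- Extending a permutation of `ℕ` to the nodes. -/
def ext (τ : Equiv.Perm ℕ) : GW ≃ GW :=
  Equiv.sumCongr τ (Equiv.sumCongr (Equiv.prodCongr τ τ)
    (Equiv.sumCongr (Equiv.prodCongr τ τ) (Equiv.prodCongr τ τ)))

theorem ext_ad {R R' : ℕ × ℕ → Bool} (τ : Equiv.Perm ℕ) (h : ∀ a b, R (a, b) = R' (τ a, τ b))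
    (u v : GW) : ad R u v = ad R' (ext τ u) (ext τ v) := by
  rcases u with a | ⟨a, b⟩ | ⟨a, b⟩ | ⟨a, b⟩ <;> rcases v with c | ⟨c, d⟩ | ⟨c, d⟩ | ⟨c, d⟩ <;>
    simp [ad, ext, h]

/-- Enumeration of the nodes. -/
noncomputable def eW : GW ≃ ℕ := Denumerable.eqv GW

/-- The graph on `ℕ` coding `R`. -/
noncomputable def GrF (R : ℕ × ℕ → Bool) (p : ℕ × ℕ) : Bool := adj R (eW.symm p.1) (eW.symm p.2)

theorem GrF_iso_iff (R R' : ℕ × ℕ → Bool) :
    (∃ σ : Equiv.Perm ℕ, ∀ m n, GrF R (m, n) = GrF R' (σ m, σ n)) ↔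
      ∃ τ : Equiv.Perm ℕ, ∀ a b, R (a, b) = R' (τ a, τ b) := by
  constructor
  · rintro ⟨σ, hσ⟩
    apply rel_iso_of_adj ((eW.trans σ).trans eW.symm)
    intro u v
    have := hσ (eW u) (eW v)
    simpa [GrF] using this
  · rintro ⟨τ, hτ⟩
    refine ⟨(eW.symm.trans (ext τ)).trans eW, fun m n => ?_⟩
    simp only [GrF, adj, Equiv.trans_apply, Equiv.symm_apply_apply]
    rw [ext_ad τ hτ, ext_ad τ hτ (eW.symm n)]

end Pool.Agent.W920.CT
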