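import Mathlib

set_option autoImplicit false

/-!
# Greedy coding of the space of independent sets of a graph on `ℕ` by the Cantor space
-/

open Topology Filter Set

namespace Pool.Agent.W920.CT

/-- The position `s` is free for `x` if no earlier neighbour of `s` is chosen by `x`. -/
def Free (Γ : ℕ → ℕ → Bool) (x : ℕ → Bool) (s : ℕ) : Prop :=
  ∀ t, t < s → Γ t s = true → x t = false

instance (Γ : ℕ → ℕ → Bool) (x : ℕ → Bool) : DecidablePred (Free Γ x) := fun s => by
  unfold Free; infer_instance

theorem Free.congr {Γ : ℕ → ℕ → Bool} {x y : ℕ → Bool} {s : ℕ} (h : ∀ t, t < s → x t = y t) :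
    Free Γ x s ↔ Free Γ y s := by
  constructor
  · intro H t ht hG; rw [← h t ht]; exact H t ht hG
  · intro H t ht hG; rw [h t ht]; exact H t ht hG

/-- The greedy algorithm: bits decided so far, and number of input bits consumed. -/
def pre (Γ : ℕ → ℕ → Bool) (z : ℕ → Bool) : ℕ → (ℕ → Bool) × ℕ
  | 0 => (fun _ => false, 0)
  | s + 1 =>
    if Free Γ (pre Γ z s).1 s then
      (Function.update (pre Γ z s).1 s (z (pre Γ z s).2), (pre Γ z s).2 + 1)
    else pre Γ z s

/-- The output of the greedy algorithm. -/
def out (Γ : ℕ → ℕ → Bool) (z : ℕ → Bool) (s : ℕ) : Bool := (pre Γ z (s + 1)).1 s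

theorem pre_ge (Γ : ℕ → ℕ → Bool) (z : ℕ → Bool) : ∀ s t, s ≤ t → (pre Γ z s).1 t = false := by
  intro s
  induction s with
  | zero => intro t _; rfl
  | succ s ih =>
    intro t ht
    rw [pre]
    split_ifs with h
    · show Function.update (pre Γ z s).1 s (z (pre Γ z s).2) t = false
      rw [Function.update_of_ne (by omega)]; exact ih t (by omega)
    · exact ih t (by omega)

theorem pre_eq (Γ : ℕ → ℕ → Bool) (z : ℕ → Bool) :
    ∀ s t, t < s → (pre Γ z s).1 t = out Γ z t := by
  intro s
  induction s with
  | zero => intro t ht; omega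
  | succ s ih =>
    intro t ht
    rcases Nat.lt_succ_iff_lt_or_eq.1 ht with h | h
    · rw [pre]
      split_ifs with h'
      · show Function.update (pre Γ z s).1 s (z (pre Γ z s).2) t = _
        rw [Function.update_of_ne (by omega)]; exact ih t h
      · exact ih t h
    · subst h; rfl

theorem free_pre (Γ : ℕ → ℕ → Bool) (z : ℕ → Bool) (s : ℕ) :
    Free Γ (pre Γ z s).1 s ↔ Free Γ (out Γ z) s :=
  Free.congr fun t ht => pre_eq Γ z s t ht

theorem pre_count (Γ : ℕ → ℕ → Bool) (z : ℕ → Bool) (s : ℕ) :
    (pre Γ z s).2 = Nat.count (Free Γ (out Γ z)) s := by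
  induction s with
  | zero => simp [pre]
  | succ s ih =>
    rw [pre, Nat.count_succ]
    by_cases h : Free Γ (out Γ z) s
    · rw [if_pos ((free_pre Γ z s).2 h), if_pos h]
      show (pre Γ z s).2 + 1 = _
      rw [ih]
    · rw [if_neg (mt (free_pre Γ z s).1 h), if_neg h, ih, Nat.add_zero]

theorem out_eq (Γ : ℕ → ℕ → Bool) (z : ℕ → Bool) (s : ℕ) :
    out Γ z s = if Free Γ (out Γ z) s then z (Nat.count (Free Γ (out Γ z)) s) else false := by
  show (pre Γ z (s + 1)).1 s = _
  rw [pre]
  by_cases h : Free Γ (out Γ z) s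
  · rw [if_pos ((free_pre Γ z s).2 h), if_pos h]
    show Function.update (pre Γ z s).1 s (z (pre Γ z s).2) s = _
    rw [Function.update_self, pre_count]
  · rw [if_neg (mt (free_pre Γ z s).1 h), if_neg h]
    exact pre_ge Γ z s s le_rfl

theorem out_unique (Γ : ℕ → ℕ → Bool) (z x : ℕ → Bool)
    (hx : ∀ s, x s = if Free Γ x s then z (Nat.count (Free Γ x) s) else false) :
    x = out Γ z := by
  funext s
  induction s using Nat.strong_induction_on with
  | _ s ih =>
    have hf : ∀ t, t ≤ s → (Free Γ x t ↔ Free Γ (out Γ z) t) := fun t ht =>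
      Free.congr fun r hr => ih r (by omega)
    rw [hx s, out_eq]
    have hc : Nat.count (Free Γ x) s = Nat.count (Free Γ (out Γ z)) s := by
      rw [Nat.count_eq_card_filter_range, Nat.count_eq_card_filter_range]
      congr 1
      apply Finset.filter_congr
      intro t ht
      exact hf t (Finset.mem_range.1 ht).le
    rw [hc]
    by_cases h : Free Γ x s
    · rw [if_pos h, if_pos ((hf s le_rfl).1 h)]
    · rw [if_neg h, if_neg (mt (hf s le_rfl).2 h)]

/-- Independent sets. -/
def Indep {S : Type*} (Γ : S → S → Bool) (x : S → Bool) : Prop :=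
  ∀ s t, Γ s t = true → x s = true → x t = false

theorem out_indep {Γ : ℕ → ℕ → Bool} (hsym : ∀ s t, Γ s t = Γ t s) (hirr : ∀ s, Γ s s = false)
    (z : ℕ → Bool) : Indep Γ (out Γ z) := by
  have key : ∀ s t, s < t → Γ s t = true → out Γ z s = true → out Γ z t = false := by
    intro s t hst hG hs
    rw [out_eq, if_neg]
    intro h
    rw [h s hst hG] at hs
    exact Bool.false_ne_true hs
  intro s t hG hs
  rcases lt_trichotomy s t with h | h | h
  · exact key s t h hG hs
  · subst h; rw [hirr] at hG; exact absurd hG Bool.false_ne_true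
  · by_contra ht
    have ht' : out Γ z t = true := by simpa using ht
    have := key t s h (by rw [hsym]; exact hG) ht'
    rw [this] at hs; exact Bool.false_ne_true hs

theorem out_injective {Γ : ℕ → ℕ → Bool} (hsym : ∀ s t, Γ s t = Γ t s)
    (hirr : ∀ s, Γ s s = false)
    (hinf : ∀ x, Indep Γ x → {s | Free Γ x s}.Infinite) : Function.Injective (out Γ) := by
  intro z z' h
  funext k
  have hi := hinf _ (out_indep hsym hirr z)
  set s := Nat.nth (Free Γ (out Γ z)) k with hs
  have h1 : Free Γ (out Γ z) s := Nat.nth_mem_of_infinite hi k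
  have h2 : Nat.count (Free Γ (out Γ z)) s = k := Nat.count_nth_of_infinite hi k
  have h3 := out_eq Γ z s
  have h4 := out_eq Γ z' s
  rw [← h] at h4
  rw [if_pos h1, h2] at h3 h4
  rw [← h3, ← h4]

theorem out_surj {Γ : ℕ → ℕ → Bool} (x : ℕ → Bool) (hx : Indep Γ x) :
    ∃ z, out Γ z = x := by
  refine ⟨fun k => x (Nat.nth (Free Γ x) k), ?_⟩
  symm
  apply out_unique
  intro s
  by_cases h : Free Γ x s
  · rw [if_pos h, Nat.nth_count h]
  · rw [if_neg h]
    unfold Free at h
    push Not at h
    obtain ⟨t, _, hG, hxt⟩ := h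
    exact hx t s hG (by simpa using hxt)

theorem continuous_eval_nat {P : Type*} [TopologicalSpace P] {f : P → ℕ → Bool} {k : P → ℕ}
    (hf : Continuous f) (hk : Continuous k) : Continuous fun p => f p (k p) := by
  rw [continuous_iff_continuousAt]
  intro p
  have h1 : ∀ᶠ q in 𝓝 p, k q = k p :=
    hk.continuousAt.eventually_mem ((isOpen_discrete {k p}).mem_nhds rfl)
  have h2 : ContinuousAt (fun q => f q (k p)) p :=
    ((continuous_apply (k p)).comp hf).continuousAt
  refine h2.congr ?_
  filter_upwards [h1] with q hq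
  rw [hq]

theorem isClopen_free {P : Type*} [TopologicalSpace P] {Γ : P → ℕ → ℕ → Bool}
    {f : P → ℕ → Bool} (hG : Continuous Γ) (hf : Continuous f) (s : ℕ) :
    IsClopen {p | Free (Γ p) (f p) s} := by
  have e : {p | Free (Γ p) (f p) s} =
      ⋂ t ∈ Finset.range s, {p | Γ p t s = true → f p t = false} := by
    ext p; simp [Free]
  rw [e]
  apply isClopen_biInter_finset
  intro t _
  have h1 : Continuous fun p => (Γ p t s, f p t) := by
    refine Continuous.prodMk ?_ ?_
    · exact (continuous_apply s).comp ((continuous_apply t).comp hG)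
    · exact (continuous_apply t).comp hf
  exact (isClopen_discrete {q : Bool × Bool | q.1 = true → q.2 = false}).preimage h1

theorem continuous_pre {P : Type*} [TopologicalSpace P] {Γ : P → ℕ → ℕ → Bool}
    {z : P → ℕ → Bool} (hG : Continuous Γ) (hz : Continuous z) (s : ℕ) :
    Continuous fun p => pre (Γ p) (z p) s := by
  induction s with
  | zero => exact continuous_const
  | succ s ih =>
    simp only [pre]
    refine Continuous.if ?_ ?_ ih
    · intro a ha
      rw [(isClopen_free hG ih.fst s).frontier_eq] at ha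
      exact ha.elim
    · refine Continuous.prodMk ?_ ?_
      · exact ih.fst.update s (continuous_eval_nat hz ih.snd)
      · exact (continuous_of_discreteTopology (f := fun n : ℕ => n + 1)).comp ih.snd

theorem continuous_out {P : Type*} [TopologicalSpace P] {Γ : P → ℕ → ℕ → Bool}
    {z : P → ℕ → Bool} (hG : Continuous Γ) (hz : Continuous z) :
    Continuous fun p => out (Γ p) (z p) :=
  continuous_pi fun s => (continuous_apply s).comp (continuous_pre hG hz (s + 1)).fst

end Pool.Agent.W920.CT
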