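import Pool.Agent.W920.CT.Sys

set_option autoImplicit false

/-!
# Transitivity of `TG g`, and basic topological facts on `XG g`
-/

open Topology Filter Set

namespace Pool.Agent.W920.CT

/-- Basic neighbourhoods in `XG g`. -/
theorem exists_nbhd {g : Par} {U : Set (XG g)} (hU : IsOpen U) {x : XG g} (hx : x ∈ U) :
    ∃ F : Finset Pos, ∀ y : XG g, (∀ p ∈ F, y.1 p = x.1 p) → y ∈ U := by
  obtain ⟨O, hO, rfl⟩ := isOpen_induced_iff.1 hU
  obtain ⟨I, u, hu, hsub⟩ := isOpen_pi_iff.1 hO x.1 hx
  refine ⟨I, fun y hy => hsub ?_⟩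
  intro p hp
  show y.1 p ∈ u p
  rw [hy p hp]
  exact (hu p hp).2

theorem isClosed_ok (g : Par) : IsClosed {x : Pos → Bool | Ok g x} := by
  have e : {x : Pos → Bool | Ok g x} = ⋂ p : Pos, ⋂ q : Pos, {x : Pos → Bool |
      conf g p q = true → x p = true → x q = false} := by
    ext x
    simp only [mem_ofPred_eq, mem_iInter, ← indep_iff, Indep]
  rw [e]
  refine isClosed_iInter fun p => isClosed_iInter fun q => ?_
  have h1 : Continuous fun x : Pos → Bool => (x p, x q) :=
    (continuous_apply p).prodMk (continuous_apply q)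
  exact ((isClosed_discrete {b : Bool × Bool | conf g p q = true → b.1 = true →
    b.2 = false}).preimage h1)

instance (g : Par) : CompactSpace (XG g) :=
  isCompact_iff_compactSpace.1 (isClosed_ok g).isCompact

/-- A continuous map from `XG g` to a discrete space depends on finitely many coordinates. -/
theorem exists_finset {g : Par} {Y : Type*} [TopologicalSpace Y] [DiscreteTopology Y]
    (f : XG g → Y) (hf : Continuous f) :
    ∃ F : Finset Pos, ∀ x y : XG g, (∀ p ∈ F, x.1 p = y.1 p) → f x = f y := by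
  have h1 : ∀ x : XG g, ∃ F : Finset Pos, ∀ y : XG g, (∀ p ∈ F, y.1 p = x.1 p) → f y = f x := by
    intro x
    exact exists_nbhd ((isOpen_discrete {f x}).preimage hf) (x := x) rfl
  choose F hF using h1
  have h2 : ∀ x : XG g, {y : XG g | ∀ p ∈ F x, y.1 p = x.1 p} ∈ 𝓝 x := by
    intro x
    have h3 : {y : XG g | ∀ p ∈ F x, y.1 p = x.1 p} =
        ⋂ p ∈ F x, {y : XG g | y.1 p = x.1 p} := by ext y; simp
    rw [h3]
    refine (isOpen_biInter_finset fun p _ => ?_).mem_nhds (by simp)
    exact (isOpen_discrete {x.1 p}).preimage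
      ((continuous_apply p).comp (continuous_subtype_val (p := fun x : Pos → Bool => Ok g x)))
  obtain ⟨t, -, ht⟩ := (isCompact_univ (X := XG g)).elim_nhds_subcover _ fun x _ => h2 x
  classical
  refine ⟨t.biUnion F, fun x y hxy => ?_⟩
  have hx : x ∈ ⋃ a ∈ t, {y : XG g | ∀ p ∈ F a, y.1 p = a.1 p} := ht (mem_univ x)
  simp only [mem_iUnion, mem_ofPred_eq] at hx
  obtain ⟨a, ha, hxa⟩ := hx
  rw [hF a x hxa, hF a y]
  intro p hp
  rw [← hxy p (Finset.mem_biUnion.2 ⟨a, ha, hp⟩), hxa p hp]

theorem TG_zpow (g : Par) (n : ℤ) (z : Cantor) :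
    (TG g ^ n) z = (phi g).symm (sh n (phi g z)) := by
  induction n using Int.induction_on generalizing z with
  | zero => simp [sh_zero]
  | succ n ih =>
    rw [zpow_add_one]
    show (TG g ^ (n : ℤ)) (TG g z) = _
    rw [ih]
    show (phi g).symm (sh n (phi g ((phi g).symm (sh 1 (phi g z))))) = _
    rw [(phi g).apply_symm_apply, sh_sh]
  | pred n ih =>
    rw [zpow_sub_one]
    show (TG g ^ (-(n : ℤ))) ((TG g).symm z) = _
    rw [ih]
    show (phi g).symm (sh (-n) (phi g ((phi g).symm (sh (-1) (phi g z))))) = _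
    rw [(phi g).apply_symm_apply, sh_sh]
    rfl

/-- Topological transitivity. -/
def IsTransitive (T : Cantor ≃ₜ Cantor) : Prop :=
  ∀ U V : Set Cantor, IsOpen U → IsOpen V → U.Nonempty → V.Nonempty →
    ∃ n : ℤ, ((T ^ n : Cantor ≃ₜ Cantor) '' U ∩ V).Nonempty

theorem glue_ok {g : Par} {x y : Pos → Bool} (hx : Ok g x) (hy : Ok g y) (R n : ℤ)
    (hn : 2 * R + 1 < n) :
    Ok g (fun p => if |p.1| ≤ R then x p else if |p.1 - n| ≤ R then y (p.1 - n, p.2) else false) := by
  refine ⟨fun m v w hvw h => ?_, fun m v j h => ?_, fun m v w hvw hD h => ?_⟩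
  · dsimp only at h ⊢
    split_ifs at h ⊢ with h1 h2
    · exact hx.h1 _ v w hvw h
    · exact hy.h1 _ v w hvw h
  · dsimp only at h ⊢
    split_ifs at h ⊢ with h1 h2
    · exact hx.h2 _ v j h
    · exact hy.h2 _ v j h
  · dsimp only at h ⊢
    split_ifs at h with h1 h2
    · rw [abs_le] at h1
      by_cases h3 : |m + 1| ≤ R
      · rw [if_pos h3]; exact hx.h3 _ v w hvw hD h
      · rw [if_neg h3, if_neg]
        rw [abs_le]; omega
    · rw [abs_le] at h2
      rw [if_neg (by rw [abs_le]; omega)]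
      by_cases h3 : |m + 1 - n| ≤ R
      · rw [if_pos h3]
        have := hy.h3 _ v w hvw hD h
        rw [show m + 1 - n = m - n + 1 by ring]; exact this
      · rw [if_neg h3]

theorem exists_bound (F : Finset Pos) : ∃ R : ℤ, 0 ≤ R ∧ ∀ p ∈ F, |p.1| ≤ R := by
  classical
  induction F using Finset.induction_on with
  | empty => exact ⟨0, le_rfl, by simp⟩
  | insert p F _ ih =>
    obtain ⟨R, hR, h⟩ := ih
    refine ⟨max R |p.1|, le_max_of_le_left hR, fun q hq => ?_⟩
    rcases Finset.mem_insert.1 hq with rfl | hq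
    · exact le_max_right _ _
    · exact (h q hq).trans (le_max_left _ _)

theorem TG_transitive (g : Par) : IsTransitive (TG g) := by
  intro U V hU hV hUn hVn
  obtain ⟨a, ha⟩ := hUn
  obtain ⟨b, hb⟩ := hVn
  obtain ⟨F1, hF1⟩ := exists_nbhd (hU.preimage (phi g).symm.continuous) (x := phi g a)
    (by simpa using ha)
  obtain ⟨F2, hF2⟩ := exists_nbhd (hV.preimage (phi g).symm.continuous) (x := phi g b)
    (by simpa using hb)
  classical
  obtain ⟨R, hR0, hR⟩ := exists_bound (F1 ∪ F2)
  set n : ℤ := 2 * R + 2 with hn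
  let y : XG g := ⟨_, glue_ok (phi g a).2 (phi g b).2 R n (by omega)⟩
  have h1 : (phi g).symm y ∈ U := by
    apply hF1
    intro p hp
    exact if_pos (hR p (Finset.mem_union_left _ hp))
  have h2 : (phi g).symm (sh n y) ∈ V := by
    apply hF2
    rintro ⟨m, s⟩ hp
    have hm : |m| ≤ R := hR _ (Finset.mem_union_right _ hp)
    show (if |m + n| ≤ R then (phi g a).1 (m + n, s) else
      if |m + n - n| ≤ R then (phi g b).1 (m + n - n, s) else false) = (phi g b).1 (m, s)
    rw [abs_le] at hm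
    rw [if_neg (by rw [abs_le]; omega), add_sub_cancel_right, if_pos (by rw [abs_le]; omega)]
  refine ⟨n, (phi g).symm (sh n y), ⟨(phi g).symm y, h1, ?_⟩, h2⟩
  rw [TG_zpow, (phi g).apply_symm_apply]

end Pool.Agent.W920.CT
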