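import Pool.Agent.W920.CT.GC
import Pool.Agent.W920.CT.Trans

set_option autoImplicit false

/-!
# The upper bound: homeomorphisms of the Cantor space up to conjugacy are classified by graphs
-/

open Topology Filter Set TopologicalSpace

namespace Pool.Agent.W920.CT

/-- The preimage of a clopen set. -/
def pb (T : Cantor ≃ₜ Cantor) (a : Clopens Cantor) : Clopens Cantor :=
  ⟨T ⁻¹' a, a.isClopen.preimage T.continuous⟩

theorem mem_pb {T : Cantor ≃ₜ Cantor} {a : Clopens Cantor} {x : Cantor} :
    x ∈ pb T a ↔ T x ∈ a := Iff.rfl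

theorem eq_of_clopens {x y : Cantor} (h : ∀ a : Clopens Cantor, x ∈ a → y ∈ a) : x = y := by
  funext n
  have := h ⟨{z | z n = x n}, (isClopen_discrete {x n}).preimage (continuous_apply n)⟩ rfl
  exact Eq.symm this

theorem stone_aux (s : Clopens Cantor ≃o Clopens Cantor) (x : Cantor) :
    ∃ y : Cantor, ∀ a, y ∈ s a ↔ x ∈ a := by
  have : Nonempty {a : Clopens Cantor // x ∈ a} := ⟨⟨⊤, trivial⟩⟩
  obtain ⟨y, hy⟩ := IsCompact.nonempty_iInter_of_directed_nonempty_isCompact_isClosed
    (fun i : {a : Clopens Cantor // x ∈ a} => ((s i.1 : Clopens Cantor) : Set Cantor))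
    (fun i j => ⟨⟨i.1 ⊓ j.1, ⟨i.2, j.2⟩⟩, s.monotone inf_le_left, s.monotone inf_le_right⟩)
    (fun i => by
      rw [nonempty_iff_ne_empty]
      intro h
      have h1 : s i.1 = ⊥ := by
        ext z
        show z ∈ ((s i.1 : Clopens Cantor) : Set Cantor) ↔ z ∈ (∅ : Set Cantor)
        rw [h]
      have h1' : i.1 = ⊥ := s.injective (by rw [h1, OrderIso.map_bot])
      have h2 := i.2
      rw [h1'] at h2
      exact h2)
    (fun i => (s i.1).isClopen.isClosed.isCompact) (fun i => (s i.1).isClopen.isClosed)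
  rw [mem_iInter] at hy
  have h1 : ∀ a, x ∈ a → y ∈ s a := fun a ha => hy ⟨a, ha⟩
  refine ⟨y, fun a => ⟨fun h => ?_, h1 a⟩⟩
  by_contra hx
  have h2 : y ∈ s aᶜ := h1 _ hx
  have h3 : y ∈ s a ⊓ s aᶜ := ⟨h, h2⟩
  rw [← OrderIso.map_inf, inf_compl_eq_bot, OrderIso.map_bot] at h3
  exact h3

/-- Stone duality for automorphisms of the algebra of clopen sets. -/
theorem stone (s : Clopens Cantor ≃o Clopens Cantor) :
    ∃ h : Cantor ≃ₜ Cantor, ∀ x a, h x ∈ s a ↔ x ∈ a := by
  choose h hh using stone_aux s
  choose k hk using stone_aux s.symm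
  have cont : ∀ (s : Clopens Cantor ≃o Clopens Cantor) (h : Cantor → Cantor)
      (_ : ∀ x a, h x ∈ s a ↔ x ∈ a), Continuous h := by
    intro s h hh
    rw [(isTopologicalBasis_isClopen (X := Cantor)).continuous_iff]
    intro b hb
    have e : h ⁻¹' b = (s.symm ⟨b, hb⟩ : Clopens Cantor) := by
      ext x
      have := hh x (s.symm ⟨b, hb⟩)
      rw [s.apply_symm_apply] at this
      exact this
    rw [e]
    exact (s.symm ⟨b, hb⟩).isClopen.isOpen
  refine ⟨⟨⟨h, k, fun x => ?_, fun x => ?_⟩, cont s h hh, cont s.symm k hk⟩, hh⟩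
  · symm
    apply eq_of_clopens
    intro a ha
    have h1 := hk (h x) (s a)
    rw [s.symm_apply_apply] at h1
    exact h1.2 ((hh x a).2 ha)
  · symm
    apply eq_of_clopens
    intro a ha
    have h1 := hh (k x) (s.symm a)
    rw [s.apply_symm_apply] at h1
    exact h1.2 ((hk x a).2 ha)

instance : Countable (Clopens Cantor) := Clopens.countable_iff_secondCountable.2 inferInstance

instance : Infinite (Clopens Cantor) := by
  refine Infinite.of_injective
    (fun n : ℕ => (⟨{z | z n = true}, (isClopen_discrete {true}).preimage (continuous_apply n)⟩ :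
      Clopens Cantor)) ?_
  intro n m h
  have h1 : (fun k => decide (k = n) : Cantor) ∈ (⟨{z | z n = true},
    (isClopen_discrete {true}).preimage (continuous_apply n)⟩ : Clopens Cantor) := by
    show decide (n = n) = true
    simp
  have h2 : (fun k => decide (k = n) : Cantor) ∈ (⟨{z | z m = true},
    (isClopen_discrete {true}).preimage (continuous_apply m)⟩ : Clopens Cantor) := by
    simp only at h
    rw [← h]; exact h1
  have h3 : decide (m = n) = true := h2
  exact (of_decide_eq_true h3).symm

/-- Enumeration of the clopen sets. -/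
noncomputable def eC : Clopens Cantor ≃ ℕ := (nonempty_equiv_of_countable).some

open Classical in
/-- The relation coding `T`. -/
noncomputable def RT (T : Cantor ≃ₜ Cantor) (p : ℕ × ℕ) : Bool :=
  decide (eC.symm p.1 ≤ pb T (eC.symm p.2))

theorem pb_le (T : Cantor ≃ₜ Cantor) (a b : Clopens Cantor) : pb T a ≤ pb T b ↔ a ≤ b := by
  constructor
  · intro h x hx
    have : T.symm x ∈ pb T a := by rw [mem_pb, T.apply_symm_apply]; exact hx
    have := h this
    rw [mem_pb, T.apply_symm_apply] at this
    exact this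
  · intro h x hx
    exact h hx

theorem RT_iso_iff (T T' : Cantor ≃ₜ Cantor) :
    (∃ h : Cantor ≃ₜ Cantor, T' = h * T * h⁻¹) ↔
      ∃ τ : Equiv.Perm ℕ, ∀ a b, RT T (a, b) = RT T' (τ a, τ b) := by
  constructor
  · rintro ⟨h, rfl⟩
    refine ⟨(eC.symm.trans ⟨pb h.symm, pb h, fun a => ?_, fun a => ?_⟩).trans eC,
      fun a b => ?_⟩
    · ext x
      show h.symm (h x) ∈ a ↔ x ∈ a
      rw [h.symm_apply_apply]
    · ext x
      show h (h.symm x) ∈ a ↔ x ∈ a
      rw [h.apply_symm_apply]
    · unfold RT
      rw [decide_eq_decide]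
      simp only [Equiv.trans_apply, Equiv.symm_apply_apply, Equiv.coe_fn_mk]
      constructor
      · intro H x hx
        show h.symm (h (T (h.symm x))) ∈ eC.symm b
        rw [h.symm_apply_apply]
        exact H hx
      · intro H x hx
        have h1 : h x ∈ pb h.symm (eC.symm a) := by
          rw [mem_pb, h.symm_apply_apply]; exact hx
        have h2 := H h1
        have h3 : h.symm (h (T (h.symm (h x)))) ∈ eC.symm b := h2
        rw [h.symm_apply_apply, h.symm_apply_apply] at h3
        exact h3
  · rintro ⟨τ, hτ⟩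
    set s0 : Clopens Cantor ≃ Clopens Cantor := (eC.trans τ).trans eC.symm with hs0
    have h1 : ∀ a b, a ≤ pb T b ↔ s0 a ≤ pb T' (s0 b) := by
      intro a b
      have := hτ (eC a) (eC b)
      unfold RT at this
      rw [decide_eq_decide] at this
      simpa [hs0] using this
    have h2 : ∀ a b, s0 a ≤ s0 b ↔ a ≤ b := by
      intro a b
      rw [← pb_le T a b, ← pb_le T' (s0 a) (s0 b)]
      constructor
      · intro h
        rw [h1]
        exact ((h1 _ _).1 le_rfl).trans h
      · intro h
        have h3 : ∀ c, c ≤ pb T' (s0 a) → c ≤ pb T' (s0 b) := by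
          intro c hc
          rw [← s0.apply_symm_apply c, ← h1] at hc ⊢
          exact hc.trans h
        exact h3 _ le_rfl
    let s : Clopens Cantor ≃o Clopens Cantor := ⟨s0, fun {a b} => h2 a b⟩
    have h3 : ∀ b, s (pb T b) = pb T' (s b) := by
      intro b
      have h4 : ∀ c, c ≤ s (pb T b) ↔ c ≤ pb T' (s b) := by
        intro c
        rw [← s.apply_symm_apply c, s.le_iff_le, h1]
        rfl
      exact le_antisymm ((h4 _).1 le_rfl) ((h4 _).2 le_rfl)
    obtain ⟨h, hh⟩ := stone s
    refine ⟨h, ?_⟩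
    have h4 : ∀ x, h (T x) = T' (h x) := by
      intro x
      apply eq_of_clopens
      intro c hc
      rw [← s.apply_symm_apply c] at hc ⊢
      rw [hh, ← mem_pb, ← hh, h3, mem_pb] at hc
      exact hc
    ext1 x
    show T' x = h (T (h.symm x))
    rw [h4, h.apply_symm_apply]

/-- The set of homeomorphisms mapping a clopen set into another one is open. -/
theorem isOpen_RT (a b : Clopens Cantor) :
    IsOpen {f : C(Cantor, Cantor) | (a : Set Cantor) ⊆ f ⁻¹' b} :=
  ContinuousMap.isOpen_setOfPred_mapsTo a.isClopen.isClosed.isCompact b.isClopen.isOpen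

end Pool.Agent.W920.CT
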