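import Pool.Agent.W920.CT.Defs
import Pool.Agent.W920.CT.Cls
import Pool.Agent.W920.CT.Upper

set_option autoImplicit false

/-!
# Conjugacy of transitive homeomorphisms of the Cantor space is bi-reducible with graph isomorphism
-/

open Topology Filter Set

namespace Pool.Agent.W920.CT

theorem iso_symm (G H : CGraph) : CGraphIso G H ↔ CGraphIso H G := by
  have key : ∀ G H : CGraph, CGraphIso G H → CGraphIso H G := by
    rintro G H ⟨σ, hσ⟩
    refine ⟨σ.symm, fun m n => ?_⟩
    rw [hσ]; simp
  exact ⟨key G H, key H G⟩

/-- The transitive homeomorphism attached to a relation. -/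
noncomputable def tgH (g : Par) : TransHomeo := ⟨TG g, TG_transitive g⟩

theorem continuous_tgH : Continuous tgH := by
  refine continuous_induced_rng.2 ?_
  exact continuous_TG_toContinuousMap

/-- The lower bound. -/
theorem lower : BorelReducible CGraphIso TopConj := by
  refine ⟨fun G => tgH G.1, ?_, ?_⟩
  · exact continuous_tgH.measurable.comp measurable_subtype_coe
  · intro G H
    rw [iso_symm]
    exact (conj_iff H.2.1 H.2.2 G.2.1 G.2.2).symm

theorem continuous_ad (u v : GW) : Continuous fun R : ℕ × ℕ → Bool => ad R u v := by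
  rcases u with a | q | q | q <;> rcases v with b | p | p | p <;> try exact continuous_const
  exact (continuous_of_discreteTopology (f := fun b : Bool => decide (q = p) && b)).comp
    (continuous_apply q)

theorem continuous_GrF : Continuous GrF := by
  refine continuous_pi fun p => ?_
  exact (continuous_of_discreteTopology (f := fun b : Bool × Bool => b.1 || b.2)).comp
    ((continuous_ad _ _).prodMk (continuous_ad _ _))

theorem RT_eq_true (T : Cantor ≃ₜ Cantor) (p : ℕ × ℕ) :
    RT T p = true ↔ (eC.symm p.1 : Set Cantor) ⊆ T ⁻¹' (eC.symm p.2) := by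
  classical
  unfold RT
  rw [decide_eq_true_iff]
  rfl

theorem measurable_RT : Measurable fun T : TransHomeo => RT T.1 := by
  rw [measurable_pi_iff]
  intro p
  refine measurable_to_bool ?_
  have h1 : IsOpen {T : TransHomeo | (eC.symm p.1 : Set Cantor) ⊆ T.1 ⁻¹' (eC.symm p.2)} :=
    (isOpen_RT (eC.symm p.1) (eC.symm p.2)).preimage
      (continuous_induced_dom (f := fun T : TransHomeo => (⟨T.1, T.1.continuous⟩ : C(Cantor, Cantor))))
  have e : (fun T : TransHomeo => RT T.1 p) ⁻¹' {true} =
      {T : TransHomeo | (eC.symm p.1 : Set Cantor) ⊆ T.1 ⁻¹' (eC.symm p.2)} := by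
    ext T
    exact RT_eq_true T.1 p
  rw [e]
  exact h1.measurableSet

/-- The graph attached to a transitive homeomorphism. -/
noncomputable def codeG (T : TransHomeo) : CGraph :=
  ⟨GrF (RT T.1), fun _ _ => adj_symm _ _ _, fun _ => adj_irr _ _⟩

/-- The upper bound. -/
theorem upper : BorelReducible TopConj CGraphIso := by
  refine ⟨codeG, ?_, ?_⟩
  · exact (continuous_GrF.measurable.comp measurable_RT).subtype_mk
  · intro S T
    rw [iso_symm]
    have h1 : CGraphIso (codeG T) (codeG S) ↔
        ∃ σ : Equiv.Perm ℕ, ∀ m n, GrF (RT T.1) (m, n) = GrF (RT S.1) (σ m, σ n) := Iff.rfl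
    rw [h1, GrF_iso_iff, ← RT_iso_iff]
    rfl

end Pool.Agent.W920.CT
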