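import Pool.Agent.W920.CT.Greedy

set_option autoImplicit false

/-!
# The subshifts `XG g` attached to binary relations `g` on `ℕ`, as homeomorphisms of Cantor space
-/

open Topology Filter Set

namespace Pool.Agent.W920.CT

/-- Cantor space. -/
abbrev Cantor : Type := ℕ → Bool

/-- Vertex letters: the vertices of the graph and the pairs of vertices. -/
abbrev Vx : Type := ℕ ⊕ (ℕ × ℕ)
/-- All symbols. -/
abbrev St : Type := Vx ⊕ ℕ
/-- Positions: time and symbol. -/
abbrev Pos : Type := ℤ × St
/-- Parameters: binary relations on `ℕ`. -/
abbrev Par : Type := ℕ × ℕ → Bool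

/-- The directed incidence graph of a graph: arrows from vertices to the pairs that are edges (or
diagonal pairs). -/
def Dg (g : Par) : Vx → Vx → Bool
  | .inl v, .inr q => (decide (v = q.1) || decide (v = q.2)) && (decide (q.1 = q.2) || g q)
  | .inl _, .inl _ => false
  | .inr _, _ => false

/-- Oriented conflicts between positions. -/
def fc (g : Par) : Pos → Pos → Bool
  | (n, .inl v), (m, .inl w) =>
      decide (v ≠ w) && (decide (m = n) || (decide (m = n + 1) && !Dg g v w))
  | (n, .inl _), (m, .inr _) => decide (m = n)
  | (_, .inr _), _ => false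

/-- Conflicts between positions. -/
def conf (g : Par) (p q : Pos) : Bool := fc g p q || fc g q p

theorem conf_symm (g : Par) (p q : Pos) : conf g p q = conf g q p := by
  unfold conf; rw [Bool.or_comm]

theorem fc_irr (g : Par) (p : Pos) : fc g p p = false := by
  obtain ⟨n, v | j⟩ := p <;> simp [fc]

theorem conf_irr (g : Par) (p : Pos) : conf g p p = false := by
  simp [conf, fc_irr]

/-- The explicit form of independence. -/
structure Ok (g : Par) (x : Pos → Bool) : Prop where
  h1 : ∀ n v w, v ≠ w → x (n, .inl v) = true → x (n, .inl w) = false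
  h2 : ∀ n v j, x (n, .inl v) = true → x (n, .inr j) = false
  h3 : ∀ n v w, v ≠ w → Dg g v w = false → x (n, .inl v) = true → x (n + 1, .inl w) = false

theorem Ok.ofFc {g : Par} {x : Pos → Bool} (h : Ok g x) {p q : Pos} (hf : fc g p q = true) :
    ¬ (x p = true ∧ x q = true) := by
  rintro ⟨hp, hq⟩
  obtain ⟨n, v | i⟩ := p <;> obtain ⟨m, w | j⟩ := q
  · simp only [fc, Bool.and_eq_true, Bool.or_eq_true, decide_eq_true_eq, Bool.not_eq_true'] at hf
    obtain ⟨hne, rfl | ⟨rfl, hD⟩⟩ := hf
    · rw [h.h1 _ v w hne hp] at hq; exact Bool.false_ne_true hq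
    · rw [h.h3 _ v w hne hD hp] at hq; exact Bool.false_ne_true hq
  · simp only [fc, decide_eq_true_eq] at hf
    subst hf
    rw [h.h2 _ v j hp] at hq; exact Bool.false_ne_true hq
  · simp [fc] at hf
  · simp [fc] at hf

theorem indep_iff {g : Par} {x : Pos → Bool} : Indep (conf g) x ↔ Ok g x := by
  constructor
  · intro h
    refine ⟨fun n v w hvw hx => h _ _ ?_ hx, fun n v j hx => h _ _ ?_ hx,
      fun n v w hvw hD hx => h _ _ ?_ hx⟩
    · simp [conf, fc, hvw]
    · simp [conf, fc]
    · simp [conf, fc, hvw, hD]
  · intro h s t hst hs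
    by_contra ht
    have ht' : x t = true := by simpa using ht
    simp only [conf, Bool.or_eq_true] at hst
    rcases hst with hst | hst
    · exact h.ofFc hst ⟨hs, ht'⟩
    · exact h.ofFc hst ⟨ht', hs⟩

/-- Enumeration of the positions. -/
noncomputable def eP : Pos ≃ ℕ := Denumerable.eqv Pos

/-- The conflict graph transported to `ℕ`. -/
noncomputable def GN (g : Par) (s t : ℕ) : Bool := conf g (eP.symm s) (eP.symm t)

theorem continuous_Dg (v w : Vx) : Continuous fun g : Par => Dg g v w := by
  rcases v with v | v <;> rcases w with w | w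
  · exact continuous_const
  · exact (continuous_of_discreteTopology (f := fun b : Bool =>
      (decide (v = w.1) || decide (v = w.2)) && (decide (w.1 = w.2) || b))).comp
      (continuous_apply w)
  · exact continuous_const
  · exact continuous_const

theorem continuous_fc (p q : Pos) : Continuous fun g : Par => fc g p q := by
  obtain ⟨n, v | i⟩ := p <;> obtain ⟨m, w | j⟩ := q
  · exact (continuous_of_discreteTopology (f := fun b : Bool =>
      decide (v ≠ w) && (decide (m = n) || (decide (m = n + 1) && !b)))).comp
      (continuous_Dg v w)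
  · exact continuous_const
  · exact continuous_const
  · exact continuous_const

theorem continuous_conf (p q : Pos) : Continuous fun g : Par => conf g p q :=
  (continuous_of_discreteTopology (f := fun b : Bool × Bool => b.1 || b.2)).comp
    ((continuous_fc p q).prodMk (continuous_fc q p))

theorem continuous_GN : Continuous GN :=
  continuous_pi fun _ => continuous_pi fun _ => continuous_conf _ _

theorem GN_symm (g : Par) (s t : ℕ) : GN g s t = GN g t s := conf_symm _ _ _

theorem GN_irr (g : Par) (s : ℕ) : GN g s s = false := conf_irr _ _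

theorem indep_GN {g : Par} {x : ℕ → Bool} : Indep (GN g) x ↔ Indep (conf g) (fun p => x (eP p)) := by
  constructor
  · intro h p q hpq hp
    exact h (eP p) (eP q) (by simpa [GN] using hpq) hp
  · intro h s t hst hs
    have := h (eP.symm s) (eP.symm t) hst (by simpa using hs)
    simpa using this

/-- In every column there is a position in conflict with no chosen position. -/
theorem exists_free {g : Par} {x : Pos → Bool} (h : Ok g x) (n : ℤ) :
    ∃ s : St, ∀ q, conf g q (n, s) = true → x q = false := by
  by_cases hv : ∃ v : Vx, x (n, .inl v) = true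
  · obtain ⟨v, hv⟩ := hv
    refine ⟨.inl v, fun q hq => ?_⟩
    rw [conf_symm] at hq
    exact indep_iff.2 h _ _ hq hv
  · push Not at hv
    refine ⟨.inr 0, fun q hq => ?_⟩
    obtain ⟨m, w | j⟩ := q
    · simp only [conf, fc, Bool.or_false, decide_eq_true_eq] at hq
      subst hq
      simpa using hv w
    · simp [conf, fc] at hq

theorem infinite_free {g : Par} {x : ℕ → Bool} (h : Indep (GN g) x) :
    {s | Free (GN g) x s}.Infinite := by
  have h' := indep_iff.1 (indep_GN.1 h)
  choose s hs using fun n : ℤ => exists_free h' n
  refine Set.infinite_of_injective_forall_mem (f := fun n : ℤ => eP (n, s n)) ?_ ?_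
  · intro n m hnm
    have := eP.injective hnm
    exact congrArg Prod.fst this
  · intro n t _ hG
    have := hs n (eP.symm t) (by simpa [GN] using hG)
    simpa using this

/-- The total space of the family of subshifts. -/
def Tot : Type := {q : Par × (Pos → Bool) // Indep (conf q.1) q.2}

instance : TopologicalSpace Tot := inferInstanceAs (TopologicalSpace {_q : Par × (Pos → Bool) // _})
instance : T2Space Tot := inferInstanceAs (T2Space {_q : Par × (Pos → Bool) // _})

/-- The greedy coding, for all parameters at once. -/
noncomputable def totFun (q : Par × Cantor) : Tot :=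
  ⟨(q.1, fun p => out (GN q.1) q.2 (eP p)),
    indep_GN.1 (out_indep (GN_symm q.1) (GN_irr q.1) q.2)⟩

theorem continuous_totFun : Continuous totFun := by
  refine Continuous.subtype_mk (Continuous.prodMk continuous_fst ?_) _
  have h : Continuous fun q : Par × Cantor => out (GN q.1) q.2 :=
    continuous_out (continuous_GN.comp continuous_fst) continuous_snd
  exact continuous_pi fun p => (continuous_pi_iff.1 h (eP p))

theorem totFun_bijective : Function.Bijective totFun := by
  constructor
  · rintro ⟨g, z⟩ ⟨g', z'⟩ h
    have h1 : g = g' := congrArg (fun t : Tot => t.1.1) h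
    subst h1
    have h2 : (fun p => out (GN g) z (eP p)) = fun p => out (GN g) z' (eP p) :=
      congrArg (fun t : Tot => t.1.2) h
    have h3 : out (GN g) z = out (GN g) z' := by
      funext s
      simpa using congrFun h2 (eP.symm s)
    rw [out_injective (GN_symm g) (GN_irr g) (fun x hx => infinite_free hx) h3]
  · rintro ⟨⟨g, x⟩, hx⟩
    obtain ⟨z, hz⟩ := out_surj (Γ := GN g) (fun s => x (eP.symm s))
      (indep_GN.2 (by simpa using hx))
    refine ⟨(g, z), Subtype.ext (Prod.ext rfl ?_)⟩
    funext p
    show out (GN g) z (eP p) = x p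
    rw [hz]; simp

/-- The greedy coding as a homeomorphism. -/
noncomputable def totHomeo : Par × Cantor ≃ₜ Tot :=
  Continuous.homeoOfEquivCompactToT2 (f := Equiv.ofBijective totFun totFun_bijective)
    continuous_totFun

theorem totHomeo_fst (q : Par × Cantor) : (totHomeo q).1.1 = q.1 := rfl

theorem totHomeo_symm_fst (t : Tot) : (totHomeo.symm t).1 = t.1.1 := by
  conv_rhs => rw [← totHomeo.apply_symm_apply t]
  rfl

/-- The subshift attached to `g`. -/
def XG (g : Par) : Type := {x : Pos → Bool // Ok g x}

instance (g : Par) : TopologicalSpace (XG g) := inferInstanceAs (TopologicalSpace {_x : Pos → Bool // _})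
instance (g : Par) : T2Space (XG g) := inferInstanceAs (T2Space {_x : Pos → Bool // _})

theorem Ok.shift {g : Par} {x : Pos → Bool} (h : Ok g x) (k : ℤ) :
    Ok g (fun p => x (p.1 + k, p.2)) :=
  ⟨fun n v w hvw hx => h.h1 _ v w hvw hx, fun n v j hx => h.h2 _ v j hx,
    fun n v w hvw hD hx => by
      have := h.h3 _ v w hvw hD hx
      show x (n + 1 + k, _) = false
      rw [add_right_comm]; exact this⟩

/-- The powers of the shift. -/
def sh {g : Par} (k : ℤ) (x : XG g) : XG g := ⟨fun p => x.1 (p.1 + k, p.2), x.2.shift k⟩

theorem sh_zero {g : Par} (x : XG g) : sh 0 x = x := by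
  apply Subtype.ext; funext p; simp [sh]

theorem sh_sh {g : Par} (k l : ℤ) (x : XG g) : sh k (sh l x) = sh (k + l) x := by
  apply Subtype.ext; funext p; simp [sh, add_assoc]

theorem continuous_sh {g : Par} (k : ℤ) : Continuous (sh k : XG g → XG g) := by
  refine Continuous.subtype_mk ?_ _
  exact continuous_pi fun p => (continuous_apply _).comp continuous_subtype_val

/-- The fibre of the greedy coding. -/
noncomputable def phi (g : Par) : Cantor ≃ₜ XG g where
  toFun z := ⟨(totHomeo (g, z)).1.2, indep_iff.1 (totHomeo (g, z)).2⟩
  invFun x := (totHomeo.symm ⟨(g, x.1), indep_iff.2 x.2⟩).2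
  left_inv z := by
    show (totHomeo.symm (totHomeo (g, z))).2 = z
    rw [totHomeo.symm_apply_apply]
  right_inv x := by
    apply Subtype.ext
    show (totHomeo (g, (totHomeo.symm ⟨(g, x.1), indep_iff.2 x.2⟩).2)).1.2 = x.1
    have h : (g, (totHomeo.symm ⟨(g, x.1), indep_iff.2 x.2⟩).2)
        = totHomeo.symm ⟨(g, x.1), indep_iff.2 x.2⟩ :=
      Prod.ext (totHomeo_symm_fst ⟨(g, x.1), indep_iff.2 x.2⟩).symm rfl
    exact (congrArg (fun t => (totHomeo t).1.2) h).trans
      (congrArg (fun t : Tot => t.1.2) (totHomeo.apply_symm_apply _))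
  continuous_toFun := by
    refine Continuous.subtype_mk ?_ _
    exact (continuous_subtype_val.comp (totHomeo.continuous.comp
      (Continuous.prodMk_right g))).snd
  continuous_invFun := by
    refine (totHomeo.symm.continuous.comp ?_).snd
    exact Continuous.subtype_mk (Continuous.prodMk continuous_const continuous_subtype_val) _

/-- The homeomorphism of Cantor space attached to `g`. -/
noncomputable def TG (g : Par) : Cantor ≃ₜ Cantor where
  toFun z := (phi g).symm (sh 1 (phi g z))
  invFun z := (phi g).symm (sh (-1) (phi g z))
  left_inv z := by simp [sh_sh, sh_zero]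
  right_inv z := by simp [sh_sh, sh_zero]
  continuous_toFun := (phi g).symm.continuous.comp ((continuous_sh 1).comp (phi g).continuous)
  continuous_invFun := (phi g).symm.continuous.comp ((continuous_sh (-1)).comp (phi g).continuous)

/-- Joint continuity. -/
theorem continuous_TG : Continuous fun q : Par × Cantor => TG q.1 q.2 := by
  have e : (fun q : Par × Cantor => TG q.1 q.2) = fun q =>
      (totHomeo.symm ⟨(q.1, fun p => (totHomeo q).1.2 (p.1 + 1, p.2)),
        indep_iff.2 ((indep_iff.1 (totHomeo q).2).shift 1)⟩).2 := rfl
  rw [e]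
  refine (totHomeo.symm.continuous.comp ?_).snd
  refine Continuous.subtype_mk (Continuous.prodMk continuous_fst ?_) _
  exact continuous_pi fun p => (continuous_apply _).comp
    (continuous_subtype_val.comp totHomeo.continuous).snd

/-- The reduction is continuous as a map into `C(Cantor, Cantor)` with the topology of uniform
convergence. -/
theorem continuous_TG_toContinuousMap :
    Continuous fun g : Par => (⟨TG g, (TG g).continuous⟩ : C(Cantor, Cantor)) :=
  (ContinuousMap.curry ⟨fun q : Par × Cantor => TG q.1 q.2, continuous_TG⟩).continuous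

end Pool.Agent.W920.CT
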